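import Mathlib

set_option autoImplicit false

open MvPolynomial

namespace Pool.Agent.Helper28.RittN

universe u v w

/-! ### Derivations from ring homomorphisms into the dual numbers -/

/-- The ring homomorphism `b ↦ g b + (δ b) ε` attached to a `g`-derivation `δ`. -/
noncomputable def toDual {B : Type u} {C : Type v} [CommRing B] [CommRing C] (g : B →+* C)
    (δ : B →+ C) (h1 : δ 1 = 0) (hmul : ∀ a b, δ (a * b) = g a * δ b + g b * δ a) :
    B →+* TrivSqZeroExt C C where
  toFun b := TrivSqZeroExt.inl (g b) + TrivSqZeroExt.inr (δ b)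
  map_one' := by
    ext <;> simp [h1]
  map_mul' a b := by
    ext
    · simp
    · simp [hmul, mul_comm]
  map_zero' := by
    ext <;> simp
  map_add' a b := by
    ext <;> simp

/-- The derivation attached to a ring homomorphism into the dual numbers lifting the identity. -/
noncomputable def ofDual {B : Type u} [CommRing B] (φ : B →+* TrivSqZeroExt B B)
    (h : ∀ b, (φ b).fst = b) : Derivation ℤ B B :=
  Derivation.mk' (AddMonoidHom.toIntLinearMap
    { toFun := fun b => (φ b).snd
      map_zero' := by simp
      map_add' := by intro p q; simp })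
    (by
      intro p q
      change (φ (p * q)).snd = p • (φ q).snd + q • (φ p).snd
      rw [map_mul, TrivSqZeroExt.snd_mul, h, h]
      simp [mul_comm])

lemma ofDual_apply {B : Type u} [CommRing B] (φ : B →+* TrivSqZeroExt B B)
    (h : ∀ b, (φ b).fst = b) (b : B) : ofDual φ h b = (φ b).snd := rfl

/-- A derivation of a domain extends to its fraction field. -/
lemma exists_fractionRing (B : Type u) [CommRing B] [IsDomain B] [Differential B] :
    ∃ _ : Differential (FractionRing B), DifferentialAlgebra B (FractionRing B) := by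
  let g : B →+* FractionRing B := algebraMap B (FractionRing B)
  let δ : B →+ FractionRing B :=
    (g : B →+ FractionRing B).comp
      ((Differential.deriv : Derivation ℤ B B).toLinearMap.toAddMonoidHom)
  have hδ : ∀ b, δ b = g ((Differential.deriv : Derivation ℤ B B) b) := fun b => rfl
  let ψ : B →+* TrivSqZeroExt (FractionRing B) (FractionRing B) :=
    toDual g δ (by rw [hδ, Derivation.map_one_eq_zero, map_zero]) (by
      intro a b
      rw [hδ, hδ, hδ, Derivation.leibniz, smul_eq_mul, smul_eq_mul, map_add, map_mul, map_mul])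
  have hψ : ∀ b, ψ b = TrivSqZeroExt.inl (g b) + TrivSqZeroExt.inr (δ b) := fun b => rfl
  have hunit : ∀ y : nonZeroDivisors B, IsUnit (ψ y) := by
    intro y
    rw [TrivSqZeroExt.isUnit_iff_isUnit_fst, hψ]
    simp only [TrivSqZeroExt.fst_add, TrivSqZeroExt.fst_inl, TrivSqZeroExt.fst_inr, add_zero]
    exact IsLocalization.map_units (FractionRing B) y
  let φ : FractionRing B →+* TrivSqZeroExt (FractionRing B) (FractionRing B) :=
    IsLocalization.lift hunit
  have hφ : ∀ b, φ (g b) = ψ b := fun b => IsLocalization.lift_eq hunit b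
  have hfst : ∀ x, (φ x).fst = x := by
    let ρ : FractionRing B →+* FractionRing B :=
      { toFun := fun x => (φ x).fst
        map_one' := by simp
        map_mul' := by intro x y; simp
        map_zero' := by simp
        map_add' := by intro x y; simp }
    have : ρ = RingHom.id _ := by
      apply IsLocalization.ringHom_ext (nonZeroDivisors B)
      ext b
      change (φ (g b)).fst = g b
      rw [hφ, hψ]
      simp
    intro x
    exact congrArg (fun f => f x) this
  let _ : Differential (FractionRing B) := ⟨ofDual φ hfst⟩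
  refine ⟨inferInstance, ⟨?_⟩⟩
  intro b
  change (φ (g b)).snd = g _
  rw [hφ, hψ]
  simp only [TrivSqZeroExt.snd_add, TrivSqZeroExt.snd_inl, TrivSqZeroExt.snd_inr, zero_add, hδ]

/-- The derivation of `K[X_{(i,n)}]` that extends the one of `K` and sends `X_{(i,n)}` to
`X_{(i,n+1)}`: the differential polynomial ring over `K` in the differential variables `i : ι`. -/
noncomputable def dualK (ι : Type v) (K : Type u) [CommRing K] [Differential K] :
    MvPolynomial (ι × ℕ) K →+* TrivSqZeroExt (MvPolynomial (ι × ℕ) K)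
      (MvPolynomial (ι × ℕ) K) :=
  MvPolynomial.eval₂Hom
    (toDual (C : K →+* MvPolynomial (ι × ℕ) K)
      ((C : K →+* MvPolynomial (ι × ℕ) K).toAddMonoidHom.comp
        ((Differential.deriv : Derivation ℤ K K).toLinearMap.toAddMonoidHom))
      (by
        change C ((Differential.deriv : Derivation ℤ K K) 1) = 0
        rw [Derivation.map_one_eq_zero, map_zero])
      (by
        intro a b
        change C ((Differential.deriv : Derivation ℤ K K) (a * b)) =
          C a * C ((Differential.deriv : Derivation ℤ K K) b)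
            + C b * C ((Differential.deriv : Derivation ℤ K K) a)
        rw [Derivation.leibniz, smul_eq_mul, smul_eq_mul, map_add, map_mul, map_mul]))
    (fun i => TrivSqZeroExt.inl (X i) + TrivSqZeroExt.inr (X (i.1, i.2 + 1)))

lemma dualK_C (ι : Type v) (K : Type u) [CommRing K] [Differential K] (k : K) :
    dualK ι K (C k) = TrivSqZeroExt.inl (C k)
      + TrivSqZeroExt.inr (C ((Differential.deriv : Derivation ℤ K K) k)) := by
  simp only [dualK, eval₂Hom_C]
  rfl

lemma dualK_X (ι : Type v) (K : Type u) [CommRing K] [Differential K] (i : ι × ℕ) :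
    dualK ι K (X i) = TrivSqZeroExt.inl (X i) + TrivSqZeroExt.inr (X (i.1, i.2 + 1)) := by
  simp only [dualK, eval₂Hom_X']

lemma dualK_fst (ι : Type v) (K : Type u) [CommRing K] [Differential K]
    (p : MvPolynomial (ι × ℕ) K) : (dualK ι K p).fst = p := by
  induction p using MvPolynomial.induction_on with
  | C k => rw [dualK_C]; simp
  | add p q hp hq => rw [map_add, TrivSqZeroExt.fst_add, hp, hq]
  | mul_X p i hp => rw [map_mul, TrivSqZeroExt.fst_mul, hp, dualK_X]; simp

noncomputable instance instDiffMv (ι : Type v) (K : Type u) [CommRing K] [Differential K] :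
    Differential (MvPolynomial (ι × ℕ) K) :=
  ⟨ofDual (dualK ι K) (dualK_fst ι K)⟩

/-- The derivative as a plain function. -/
noncomputable def dr {B : Type u} [CommRing B] [Differential B] (x : B) : B :=
  (Differential.deriv : Derivation ℤ B B) x

section dr

variable {B : Type u} [CommRing B] [Differential B]

lemma dr_add (x y : B) : dr (x + y) = dr x + dr y := map_add _ x y

lemma dr_sub (x y : B) : dr (x - y) = dr x - dr y := map_sub _ x y

lemma dr_mul (x y : B) : dr (x * y) = x * dr y + y * dr x := Derivation.leibniz _ x y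

lemma dr_zero : dr (0 : B) = 0 := map_zero _

lemma dr_one : dr (1 : B) = 0 := Derivation.map_one_eq_zero _

lemma dr_natCast (n : ℕ) : dr (n : B) = 0 := Derivation.map_natCast _ n

lemma dr_algebraMap {A : Type v} [CommRing A] [Differential A] [Algebra A B]
    [DifferentialAlgebra A B] (a : A) : dr (algebraMap A B a) = algebraMap A B (dr a) :=
  deriv_algebraMap a

lemma dr_iter_algebraMap {A : Type v} [CommRing A] [Differential A] [Algebra A B]
    [DifferentialAlgebra A B] (a : A) (n : ℕ) :
    dr^[n] (algebraMap A B a) = algebraMap A B (dr^[n] a) := by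
  induction n with
  | zero => rfl
  | succ n ih => rw [Function.iterate_succ_apply', Function.iterate_succ_apply', ih, dr_algebraMap]

end dr

lemma dr_C (ι : Type v) (K : Type u) [CommRing K] [Differential K] (k : K) :
    dr (C k : MvPolynomial (ι × ℕ) K) = C (dr k) := by
  change (dualK ι K (C k)).snd = _
  rw [dualK_C]; simp; rfl

lemma dr_X (ι : Type v) (K : Type u) [CommRing K] [Differential K] (i : ι × ℕ) :
    dr (X i : MvPolynomial (ι × ℕ) K) = X (i.1, i.2 + 1) := by
  change (dualK ι K (X i)).snd = _
  rw [dualK_X]; simp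

lemma dr_iter_X (ι : Type v) (K : Type u) [CommRing K] [Differential K] (i : ι) (n : ℕ) :
    dr^[n] (X (i, 0) : MvPolynomial (ι × ℕ) K) = X (i, n) := by
  induction n with
  | zero => rfl
  | succ n ih => rw [Function.iterate_succ_apply', ih, dr_X]

/-! ### The two identities behind the example -/

section key

variable {B : Type u} [CommRing B] [Differential B]

lemma dr_pow6 (b : B) : dr (b ^ 6 - 1) = 6 * b ^ 5 * dr b := by
  rw [dr_sub, dr_one, sub_zero]
  have h : b ^ 6 = b * (b * (b * (b * (b * b)))) := by ring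
  rw [h]
  simp only [dr_mul]
  ring

lemma key_s (b c s z y : B) (hs : s = c * dr b) (hz : z = c ^ 2 * (b ^ 6 - 1)) (hy : y = b * s) :
    6 * s ^ 5 = (y * (s * dr y - dr s * y)) * dr z +
      (2 * y * (s * dr (dr y) - dr (dr s) * y) - 6 * (s * dr y - dr s * y) * dr y) * z := by
  have h1 : dr s = dr c * dr b + c * dr (dr b) := by
    rw [hs, dr_mul]; ring
  have h2 : dr (dr s) = dr (dr c) * dr b + 2 * dr c * dr (dr b) + c * dr (dr (dr b)) := by
    rw [h1, dr_add, dr_mul, dr_mul]; ring
  have h3 : dr y = dr b * s + b * dr s := by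
    rw [hy, dr_mul]; ring
  have h4 : dr (dr y) = dr (dr b) * s + 2 * dr b * dr s + b * dr (dr s) := by
    rw [h3, dr_add, dr_mul, dr_mul]; ring
  have h5 : dr z = 2 * c * dr c * (b ^ 6 - 1) + c ^ 2 * (6 * b ^ 5 * dr b) := by
    rw [hz, dr_mul, dr_pow6, pow_two, dr_mul]; ring
  rw [h5, h4, h3, h2, h1, hy, hz, hs]
  ring

lemma key_y (b c s z y : B) (hs : s = c * dr b) (hz : z = c ^ 2 * (b ^ 6 - 1)) (hy : y = b * s) :
    6 * y ^ 5 = (s * (s * dr y - dr s * y)) * dr z +
      (2 * s * (s * dr (dr y) - dr (dr s) * y) - 6 * (s * dr y - dr s * y) * dr s) * z := by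
  have h1 : dr s = dr c * dr b + c * dr (dr b) := by
    rw [hs, dr_mul]; ring
  have h2 : dr (dr s) = dr (dr c) * dr b + 2 * dr c * dr (dr b) + c * dr (dr (dr b)) := by
    rw [h1, dr_add, dr_mul, dr_mul]; ring
  have h3 : dr y = dr b * s + b * dr s := by
    rw [hy, dr_mul]; ring
  have h4 : dr (dr y) = dr (dr b) * s + 2 * dr b * dr s + b * dr (dr s) := by
    rw [h3, dr_add, dr_mul, dr_mul]; ring
  have h5 : dr z = 2 * c * dr c * (b ^ 6 - 1) + c ^ 2 * (6 * b ^ 5 * dr b) := by
    rw [hz, dr_mul, dr_pow6, pow_two, dr_mul]; ring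
  rw [h5, h4, h3, h2, h1, hy, hz, hs]
  ring

end key

/-! ### The radical of a differential ideal, over a field of characteristic zero -/

section Radical

variable {B : Type u} [CommRing B]

lemma radical_aux (hQ : ∀ (n : ℕ), 0 < n → IsUnit (n : B)) (δ : Derivation ℤ B B) (I : Ideal B)
    (hI : ∀ x ∈ I, δ x ∈ I) (u : B) :
    ∀ (k m : ℕ), u ^ k * (δ u) ^ m ∈ I → (δ u) ^ (m + 2 * k) ∈ I := by
  intro k
  induction k with
  | zero => intro m h; simpa using h
  | succ k ih =>
    intro m h
    have h1 : δ (u ^ (k + 1) * (δ u) ^ m) * δ u ∈ I := I.mul_mem_right _ (hI _ h)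
    have h2 : u ^ k * (δ u) ^ (m + 2) ∈ I := by
      have e : δ (u ^ (k + 1) * (δ u) ^ m) * δ u
          = ((k : B) + 1) * (u ^ k * (δ u) ^ (m + 2))
            + (u ^ (k + 1) * (δ u) ^ m) * (m * δ (δ u)) := by
        rw [Derivation.leibniz, Derivation.leibniz_pow, Derivation.leibniz_pow]
        simp only [smul_eq_mul, nsmul_eq_mul, Nat.add_sub_cancel]
        cases m with
        | zero => simp; ring
        | succ m => simp only [Nat.add_sub_cancel]; push_cast; ring
      rw [e] at h1
      have h3 : ((k : B) + 1) * (u ^ k * (δ u) ^ (m + 2)) ∈ I := by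
        have h4 := I.mul_mem_right (m * δ (δ u)) h
        have := I.sub_mem h1 h4
        simpa using this
      obtain ⟨w, hw⟩ := hQ (k + 1) (Nat.succ_pos k)
      have h5 := I.mul_mem_left (↑(w⁻¹) : B) h3
      have e2 : (↑(w⁻¹) : B) * (((k : B) + 1) * (u ^ k * (δ u) ^ (m + 2)))
          = u ^ k * (δ u) ^ (m + 2) := by
        have : ((k : B) + 1) = (w : B) := by rw [hw]; push_cast; rfl
        rw [this, ← mul_assoc, Units.inv_mul, one_mul]
      rwa [e2] at h5
    have h6 := ih (m + 2) h2
    have e3 : m + 2 + 2 * k = m + 2 * (k + 1) := by ring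
    rwa [e3] at h6

lemma deriv_mem_radical (hQ : ∀ (n : ℕ), 0 < n → IsUnit (n : B)) (δ : Derivation ℤ B B)
    (I : Ideal B) (hI : ∀ x ∈ I, δ x ∈ I) {u : B} (hu : u ∈ I.radical) : δ u ∈ I.radical := by
  obtain ⟨n, hn⟩ := hu
  refine ⟨0 + 2 * n, radical_aux hQ δ I hI u n 0 ?_⟩
  simpa using hn

lemma iter_mem_radical (hQ : ∀ (n : ℕ), 0 < n → IsUnit (n : B)) (δ : Derivation ℤ B B)
    (I : Ideal B) (hI : ∀ x ∈ I, δ x ∈ I) {u : B} (hu : u ∈ I.radical) (n : ℕ) :
    (⇑δ)^[n] u ∈ I.radical := by
  induction n with
  | zero => exact hu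
  | succ n ih => rw [Function.iterate_succ_apply']; exact deriv_mem_radical hQ δ I hI ih

/-- The ideal spanned by the iterated derivatives of one element is differential. -/
lemma span_iter_diff (δ : Derivation ℤ B B) (f : B) :
    ∀ x ∈ Ideal.span (Set.range (fun n : ℕ => (⇑δ)^[n] f)),
      δ x ∈ Ideal.span (Set.range (fun n : ℕ => (⇑δ)^[n] f)) := by
  intro x hx
  induction hx using Submodule.span_induction with
  | mem x hx =>
    obtain ⟨n, rfl⟩ := hx
    apply Ideal.subset_span
    exact ⟨n + 1, by simp only [Function.iterate_succ_apply']⟩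
  | zero => simp
  | add x y _ _ hx hy => rw [map_add]; exact Ideal.add_mem _ hx hy
  | smul r x hx' hx =>
    rw [smul_eq_mul, Derivation.leibniz, smul_eq_mul, smul_eq_mul]
    exact Ideal.add_mem _ (Ideal.mul_mem_left _ _ hx) (Ideal.mul_mem_right _ _ hx')

end Radical

/-! ### Counting -/

lemma card_le {K : Type u} {F : Type v} [Field K] [Field F] [Algebra K F] (S : Set F)
    {ι : Type w} (y : ι → F) (hy : AlgebraicIndependent K y)
    (h : ∀ i, y i ∈ IntermediateField.adjoin K S) :
    (Set.range y).encard ≤ S.encard := by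
  have h1 : (AlgebraicIndependent.matroid K F).Indep (Set.range y) := by
    rw [AlgebraicIndependent.matroid_indep_iff]
    exact hy.to_subtype_range
  have h2 : Set.range y ⊆ (AlgebraicIndependent.matroid K F).closure S := by
    rw [AlgebraicIndependent.matroid_closure_eq]
    rintro _ ⟨i, rfl⟩
    rw [SetLike.mem_coe, Subalgebra.mem_algebraicClosure]
    have h3 := isAlgebraic_algebraMap (A := F) (⟨y i, h i⟩ : IntermediateField.adjoin K S)
    exact IntermediateField.isAlgebraic_adjoin_iff.1 h3
  calc (Set.range y).encard = (AlgebraicIndependent.matroid K F).eRk (Set.range y) :=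
        h1.eRk_eq_encard.symm
    _ ≤ (AlgebraicIndependent.matroid K F).eRk
        ((AlgebraicIndependent.matroid K F).closure S) := Matroid.eRk_mono _ h2
    _ = (AlgebraicIndependent.matroid K F).eRk S := Matroid.eRk_closure_eq _ _
    _ ≤ S.encard := Matroid.eRk_le_encard _ _

end Pool.Agent.Helper28.RittN
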