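import Mathlib
import Pool.Agent.Helper28.RittN.Gen

set_option autoImplicit false

open MvPolynomial

namespace Pool.Agent.Helper28.RittN

universe u

section

variable (K : Type u) [Field K] (m : ℕ)

/-- The differential polynomial ring over `K` in the variables `b_0, …, b_m` and `c`. -/
abbrev RK := MvPolynomial (Option (Fin (m + 1)) × ℕ) K

/-- The variable `b_k` (with `k` taken modulo `m + 1`). -/
noncomputable def bb (k : ℕ) : RK K m := X (some (Fin.ofNat (m + 1) k), 0)

/-- The variable `c`. -/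
noncomputable def cc : RK K m := X (none, 0)

/-- The product of all `b_i'`. -/
noncomputable def WW : RK K m := ∏ i : Fin (m + 1), X (some i, 1)

/-- The product of all `b_i'`, `i ≠ k`. -/
noncomputable def Wk (k : ℕ) : RK K m :=
  ∏ i ∈ Finset.univ.erase (Fin.ofNat (m + 1) k), X (some i, 1)

noncomputable def rr : ℕ → RK K m
  | 0 => 1
  | k + 1 => cc K m * (Wk K m k) ^ 2 * (rr k) ^ 2 * ((bb K m k) ^ 6 - 1)

noncomputable def ss (k : ℕ) : RK K m := cc K m * (WW K m) ^ 2 * rr K m k

noncomputable def ck (k : ℕ) : RK K m := cc K m * WW K m * Wk K m k * rr K m k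

noncomputable def yy (k : ℕ) : RK K m := bb K m k * ss K m k

end

section

variable (K : Type u) [Field K] [Differential K] (m : ℕ)

lemma WW_eq (k : ℕ) : WW K m = dr (bb K m k) * Wk K m k := by
  rw [bb, dr_X, WW, Wk]
  exact (Finset.mul_prod_erase Finset.univ (fun i => (X (some i, 1) : RK K m))
    (Finset.mem_univ (Fin.ofNat (m + 1) k))).symm

lemma ss_eq (k : ℕ) : ss K m k = ck K m k * dr (bb K m k) := by
  rw [ss, ck, pow_two]
  nth_rewrite 2 [WW_eq K m k]
  ring

omit [Differential K] in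
lemma ss_succ (k : ℕ) [Differential K] :
    ss K m (k + 1) = (ck K m k) ^ 2 * ((bb K m k) ^ 6 - 1) := by
  rw [ss, ck, rr]
  ring

/-- The generators and all their derivatives. -/
def genset : Set (RK K m) :=
  {p | ∃ n : ℕ, (∃ k, k ≤ m + 1 ∧ p = dr^[n] (ss K m k)) ∨ (∃ k, k ≤ m ∧ p = dr^[n] (yy K m k))}

noncomputable def AK : Subalgebra K (RK K m) := Algebra.adjoin K (genset K m)

lemma ss_mem {k : ℕ} (hk : k ≤ m + 1) (n : ℕ) : dr^[n] (ss K m k) ∈ AK K m :=
  Algebra.subset_adjoin ⟨n, Or.inl ⟨k, hk, rfl⟩⟩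

lemma yy_mem {k : ℕ} (hk : k ≤ m) (n : ℕ) : dr^[n] (yy K m k) ∈ AK K m :=
  Algebra.subset_adjoin ⟨n, Or.inr ⟨k, hk, rfl⟩⟩

lemma dr_mem {p : RK K m} (hp : p ∈ AK K m) : dr p ∈ AK K m := by
  induction hp using Algebra.adjoin_induction with
  | mem x hx =>
    obtain ⟨n, ⟨k, hk, rfl⟩ | ⟨k, hk, rfl⟩⟩ := hx
    · rw [← Function.iterate_succ_apply' dr]
      exact ss_mem K m hk (n + 1)
    · rw [← Function.iterate_succ_apply' dr]
      exact yy_mem K m hk (n + 1)
  | algebraMap r =>
    rw [MvPolynomial.algebraMap_eq, dr_C, ← MvPolynomial.algebraMap_eq]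
    exact (AK K m).algebraMap_mem _
  | add x y _ _ hx hy => rw [dr_add]; exact (AK K m).add_mem hx hy
  | mul x y hx' hy' hx hy =>
    rw [dr_mul]
    exact (AK K m).add_mem ((AK K m).mul_mem hx' hy) ((AK K m).mul_mem hy' hx)

noncomputable instance instDiffAK : Differential (AK K m) where
  deriv := Derivation.mk'
    (AddMonoidHom.toIntLinearMap
      { toFun := fun p => (⟨dr p.1, dr_mem K m p.2⟩ : AK K m)
        map_zero' := by apply Subtype.ext; exact dr_zero
        map_add' := by intro p q; apply Subtype.ext; exact dr_add _ _ })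
    (by
      intro p q
      apply Subtype.ext
      exact dr_mul _ _)

lemma coe_dr (p : AK K m) : ((dr p : AK K m) : RK K m) = dr (p : RK K m) := rfl

lemma coe_dr_iter (p : AK K m) (n : ℕ) : ((dr^[n] p : AK K m) : RK K m) = dr^[n] (p : RK K m) := by
  induction n with
  | zero => rfl
  | succ n ih => rw [Function.iterate_succ_apply', Function.iterate_succ_apply', coe_dr, ih]

instance instDAAK : DifferentialAlgebra K (AK K m) where
  deriv_algebraMap k := by
    apply Subtype.ext
    change dr (algebraMap K (RK K m) k) = algebraMap K (RK K m) (dr k)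
    rw [MvPolynomial.algebraMap_eq, dr_C]

instance instDARK : DifferentialAlgebra K (RK K m) where
  deriv_algebraMap k := by
    change dr (algebraMap K (RK K m) k) = algebraMap K (RK K m) (dr k)
    rw [MvPolynomial.algebraMap_eq, dr_C]

/-- `s_k` as an element of `A` (for `k ≤ m + 1`). -/
noncomputable def sA {k : ℕ} (hk : k ≤ m + 1) : AK K m := ⟨ss K m k, ss_mem K m hk 0⟩

/-- `y_k` as an element of `A` (for `k ≤ m`). -/
noncomputable def yA {k : ℕ} (hk : k ≤ m) : AK K m := ⟨yy K m k, yy_mem K m hk 0⟩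

/-- The element `f = s_{m+1}`. -/
noncomputable def fA : AK K m := sA K m (le_refl (m + 1))

/-- The differential ideal of `f`. -/
noncomputable def IK : Ideal (AK K m) := Ideal.span (Set.range (fun n : ℕ => dr^[n] (fA K m)))

lemma mem_IK (n : ℕ) : dr^[n] (fA K m) ∈ IK K m := Ideal.subset_span ⟨n, rfl⟩

lemma IK_diff (x : AK K m) (hx : x ∈ IK K m) : dr x ∈ IK K m :=
  span_iter_diff (Differential.deriv : Derivation ℤ (AK K m) (AK K m)) (fA K m) x hx

variable [CharZero K]

lemma unit_nat (n : ℕ) (hn : 0 < n) : IsUnit (n : AK K m) := by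
  have h1 : IsUnit (n : K) := by
    rw [isUnit_iff_ne_zero]
    exact_mod_cast hn.ne'
  have h2 := h1.map (algebraMap K (AK K m))
  rwa [map_natCast] at h2

lemma rad_diff {x : AK K m} (hx : x ∈ (IK K m).radical) : dr x ∈ (IK K m).radical :=
  deriv_mem_radical (unit_nat K m) (Differential.deriv : Derivation ℤ (AK K m) (AK K m))
    (IK K m) (IK_diff K m) hx

lemma rad_diff_iter {x : AK K m} (hx : x ∈ (IK K m).radical) (n : ℕ) :
    dr^[n] x ∈ (IK K m).radical := by
  induction n with
  | zero => exact hx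
  | succ n ih => rw [Function.iterate_succ_apply']; exact rad_diff K m ih

lemma rad_of_six {x : AK K m} (h : (6 : AK K m) * x ^ 5 ∈ (IK K m).radical) :
    x ∈ (IK K m).radical := by
  have h6 : IsUnit (6 : AK K m) := by exact_mod_cast unit_nat K m 6 (by norm_num)
  have h5 := (Ideal.unit_mul_mem_iff_mem _ h6).1 h
  have h7 : x ∈ (IK K m).radical.radical := ⟨5, h5⟩
  rwa [Ideal.radical_idem] at h7

lemma step {k : ℕ} (hk : k ≤ m) (hz : sA K m (Nat.succ_le_succ hk) ∈ (IK K m).radical) :
    sA K m (Nat.le_succ_of_le hk) ∈ (IK K m).radical ∧ yA K m hk ∈ (IK K m).radical := by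
  have h1 := key_s (bb K m k) (ck K m k) (ss K m k) (ss K m (k + 1)) (yy K m k) (ss_eq K m k)
    (ss_succ K m k) rfl
  have h2 := key_y (bb K m k) (ck K m k) (ss K m k) (ss K m (k + 1)) (yy K m k) (ss_eq K m k)
    (ss_succ K m k) rfl
  set s := sA K m (Nat.le_succ_of_le hk) with hs
  set z := sA K m (Nat.succ_le_succ hk) with hzz
  set y := yA K m hk with hy
  have h1' : 6 * s ^ 5 = (y * (s * dr y - dr s * y)) * dr z +
      (2 * y * (s * dr (dr y) - dr (dr s) * y) - 6 * (s * dr y - dr s * y) * dr y) * z := by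
    apply Subtype.ext
    exact h1
  have h2' : 6 * y ^ 5 = (s * (s * dr y - dr s * y)) * dr z +
      (2 * s * (s * dr (dr y) - dr (dr s) * y) - 6 * (s * dr y - dr s * y) * dr s) * z := by
    apply Subtype.ext
    exact h2
  have hz' := rad_diff K m hz
  constructor
  · apply rad_of_six K m
    rw [h1']
    exact Ideal.add_mem _ (Ideal.mul_mem_left _ _ hz') (Ideal.mul_mem_left _ _ hz)
  · apply rad_of_six K m
    rw [h2']
    exact Ideal.add_mem _ (Ideal.mul_mem_left _ _ hz') (Ideal.mul_mem_left _ _ hz)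

lemma sA_mem_radical_aux (j : ℕ) : ∀ k (hk : k ≤ m + 1), k + j = m + 1 →
    sA K m hk ∈ (IK K m).radical := by
  induction j with
  | zero =>
    intro k hk h
    obtain rfl : k = m + 1 := h
    exact Ideal.le_radical (mem_IK K m 0)
  | succ j ih =>
    intro k hk h
    have hk' : k ≤ m := by omega
    exact (step K m hk' (ih (k + 1) (by omega) (by omega))).1

lemma sA_mem_radical {k : ℕ} (hk : k ≤ m + 1) : sA K m hk ∈ (IK K m).radical :=
  sA_mem_radical_aux K m (m + 1 - k) k hk (by omega)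

lemma yA_mem_radical {k : ℕ} (hk : k ≤ m) : yA K m hk ∈ (IK K m).radical :=
  (step K m hk (sA_mem_radical K m (Nat.succ_le_succ hk))).2

omit [CharZero K] in
/-- Augmentation. -/
noncomputable def εK : RK K m →ₐ[K] K := MvPolynomial.aeval (fun _ => (0 : K))

omit [CharZero K] in
lemma εK_dr (p : RK K m) : εK K m (dr p) = dr (εK K m p) := by
  induction p using MvPolynomial.induction_on with
  | C k =>
    rw [dr_C, ← MvPolynomial.algebraMap_eq, AlgHom.commutes, AlgHom.commutes]
    rfl
  | add p q hp hq => rw [dr_add, map_add, map_add, dr_add, hp, hq]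
  | mul_X p i hp =>
    rw [dr_mul, dr_X, map_add, map_mul, map_mul, map_mul]
    simp [εK, dr_zero]

omit [CharZero K] in
lemma εK_dr_iter (p : RK K m) (n : ℕ) : εK K m (dr^[n] p) = dr^[n] (εK K m p) := by
  induction n with
  | zero => rfl
  | succ n ih => rw [Function.iterate_succ_apply', Function.iterate_succ_apply', εK_dr, ih]

omit [CharZero K] [Field K] [Differential K] in
lemma dr_iter_zero {B : Type u} [CommRing B] [Differential B] (n : ℕ) : dr^[n] (0 : B) = 0 := by
  induction n with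
  | zero => rfl
  | succ n ih => rw [Function.iterate_succ_apply', ih, dr_zero]

omit [CharZero K] in
lemma εK_ss (k n : ℕ) : εK K m (dr^[n] (ss K m k)) = 0 := by
  rw [εK_dr_iter, ss, map_mul, map_mul]
  have h : εK K m (cc K m) = 0 := by simp [εK, cc]
  rw [h, zero_mul, zero_mul, dr_iter_zero]

omit [CharZero K] in
lemma εK_yy (k n : ℕ) : εK K m (dr^[n] (yy K m k)) = 0 := by
  rw [εK_dr_iter, yy, map_mul]
  have h : εK K m (bb K m k) = 0 := by simp [εK, bb]
  rw [h, zero_mul, dr_iter_zero]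

omit [CharZero K] in
noncomputable def εA : AK K m →ₐ[K] K := (εK K m).comp (AK K m).val

omit [CharZero K] in
lemma εA_dr (p : AK K m) : εA K m (dr p) = dr (εA K m p) := εK_dr K m (p : RK K m)

omit [CharZero K] in
noncomputable def MK : Ideal (AK K m) := RingHom.ker (εA K m)

omit [CharZero K] in
instance instPrimeMK : (MK K m).IsPrime := RingHom.ker_isPrime (εA K m)

omit [CharZero K] in
lemma IK_le_MK : IK K m ≤ MK K m := by
  rw [IK, Ideal.span_le]
  rintro _ ⟨n, rfl⟩
  change εK K m ((dr^[n] (fA K m) : AK K m) : RK K m) = 0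
  rw [coe_dr_iter]
  exact εK_ss K m (m + 1) n

lemma sub_mem_radical (p : RK K m) (hp : p ∈ AK K m) :
    (⟨p, hp⟩ : AK K m) - algebraMap K (AK K m) (εK K m p) ∈ (IK K m).radical := by
  induction hp using Algebra.adjoin_induction with
  | mem x hx =>
    obtain ⟨n, ⟨k, hk, rfl⟩ | ⟨k, hk, rfl⟩⟩ := hx
    · rw [εK_ss, map_zero, sub_zero]
      have h1 := rad_diff_iter K m (sA_mem_radical K m hk) n
      have h2 : (⟨dr^[n] (ss K m k), ss_mem K m hk n⟩ : AK K m) = dr^[n] (sA K m hk) :=
        Subtype.ext (coe_dr_iter K m (sA K m hk) n).symm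
      exact h2 ▸ h1
    · rw [εK_yy, map_zero, sub_zero]
      have h1 := rad_diff_iter K m (yA_mem_radical K m hk) n
      have h2 : (⟨dr^[n] (yy K m k), yy_mem K m hk n⟩ : AK K m) = dr^[n] (yA K m hk) :=
        Subtype.ext (coe_dr_iter K m (yA K m hk) n).symm
      exact h2 ▸ h1
  | algebraMap r =>
    have : (⟨(algebraMap K (RK K m)) r, (AK K m).algebraMap_mem r⟩ : AK K m)
        - algebraMap K (AK K m) (εK K m ((algebraMap K (RK K m)) r)) = 0 := by
      rw [AlgHom.commutes]
      apply Subtype.ext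
      simp
    exact this ▸ Ideal.zero_mem _
  | add x y hx' hy' hx hy =>
    have := Ideal.add_mem _ hx hy
    convert this using 1
    rw [map_add, map_add]
    apply Subtype.ext
    simp only [AddSubgroupClass.coe_sub, AddMemClass.coe_add]
    ring
  | mul x y hx' hy' hx hy =>
    have e : (⟨x * y, (AK K m).mul_mem hx' hy'⟩ : AK K m) - algebraMap K (AK K m) (εK K m (x * y))
      = (⟨x, hx'⟩ : AK K m) * ((⟨y, hy'⟩ : AK K m) - algebraMap K (AK K m) (εK K m y))
        + algebraMap K (AK K m) (εK K m y)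
          * ((⟨x, hx'⟩ : AK K m) - algebraMap K (AK K m) (εK K m x)) := by
      rw [map_mul, map_mul]
      apply Subtype.ext
      simp only [AddSubgroupClass.coe_sub, AddMemClass.coe_add, MulMemClass.coe_mul]
      ring
    rw [e]
    exact Ideal.add_mem _ (Ideal.mul_mem_left _ _ hy) (Ideal.mul_mem_left _ _ hx)

lemma MK_le_radical : MK K m ≤ (IK K m).radical := by
  rintro ⟨p, hp⟩ hM
  have h : εK K m p = 0 := hM
  have := sub_mem_radical K m p hp
  rwa [h, map_zero, sub_zero] at this

lemma minimalPrimes_eq : (IK K m).minimalPrimes = {MK K m} := by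
  ext Q
  rw [Set.mem_singleton_iff]
  constructor
  · rintro ⟨⟨hQ, hIQ⟩, hmin⟩
    have h1 : MK K m ≤ Q := (MK_le_radical K m).trans ((Ideal.IsPrime.radical_le_iff hQ).2 hIQ)
    exact le_antisymm (hmin ⟨instPrimeMK K m, IK_le_MK K m⟩ h1) h1
  · rintro rfl
    refine ⟨⟨instPrimeMK K m, IK_le_MK K m⟩, ?_⟩
    rintro q ⟨hq, hIq⟩ _
    exact (MK_le_radical K m).trans ((Ideal.IsPrime.radical_le_iff hq).2 hIq)

omit [CharZero K] in
lemma fA_not_unit : ¬ IsUnit (fA K m) := by
  intro h
  exact (instPrimeMK K m).ne_top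
    (Ideal.eq_top_of_isUnit_mem _ (IK_le_MK K m (mem_IK K m 0)) h)

/-! ### Finite generation -/

omit [CharZero K] in
/-- The `2 m + 3` generators: the even ones are the `s_k`, the odd ones the `y_k`. -/
noncomputable def aA (i : Fin (2 * m + 3)) : AK K m :=
  if h : (i : ℕ) % 2 = 0 then sA K m (k := (i : ℕ) / 2) (by omega)
  else yA K m (k := (i : ℕ) / 2) (by omega)

omit [CharZero K] in
lemma aA_even {k : ℕ} (hk : k ≤ m + 1) (h : 2 * k < 2 * m + 3) :
    aA K m ⟨2 * k, h⟩ = sA K m hk := by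
  rw [aA, dif_pos (by simp)]
  apply Subtype.ext
  change ss K m (2 * k / 2) = ss K m k
  congr 1
  omega

omit [CharZero K] in
lemma aA_odd {k : ℕ} (hk : k ≤ m) (h : 2 * k + 1 < 2 * m + 3) :
    aA K m ⟨2 * k + 1, h⟩ = yA K m hk := by
  rw [aA, dif_neg (by simp)]
  apply Subtype.ext
  change yy K m ((2 * k + 1) / 2) = yy K m k
  congr 1
  omega

omit [CharZero K] in
lemma adjoin_top :
    Algebra.adjoin K (Set.range (fun p : Fin (2 * m + 3) × ℕ => dr^[p.2] (aA K m p.1))) = ⊤ := by
  rw [eq_top_iff]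
  rintro ⟨p, hp⟩ -
  have : ∀ p (hp : p ∈ AK K m), (⟨p, hp⟩ : AK K m) ∈ Algebra.adjoin K
    (Set.range (fun p : Fin (2 * m + 3) × ℕ => dr^[p.2] (aA K m p.1))) := by
    intro p hp
    induction hp using Algebra.adjoin_induction with
    | mem x hx =>
      obtain ⟨n, ⟨k, hk, rfl⟩ | ⟨k, hk, rfl⟩⟩ := hx
      · apply Algebra.subset_adjoin
        refine ⟨⟨⟨2 * k, by omega⟩, n⟩, ?_⟩
        simp only
        rw [aA_even K m hk]
        exact Subtype.ext (coe_dr_iter K m (sA K m hk) n)
      · apply Algebra.subset_adjoin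
        refine ⟨⟨⟨2 * k + 1, by omega⟩, n⟩, ?_⟩
        simp only
        rw [aA_odd K m hk]
        exact Subtype.ext (coe_dr_iter K m (yA K m hk) n)
    | algebraMap r => exact Subalgebra.algebraMap_mem _ r
    | add x y hx' hy' hx hy =>
      have e : (⟨x + y, (AK K m).add_mem hx' hy'⟩ : AK K m)
          = (⟨x, hx'⟩ : AK K m) + (⟨y, hy'⟩ : AK K m) :=
        Subtype.ext (by rw [AddMemClass.coe_add])
      rw [e]; exact Subalgebra.add_mem _ hx hy
    | mul x y hx' hy' hx hy =>
      have e : (⟨x * y, (AK K m).mul_mem hx' hy'⟩ : AK K m)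
          = (⟨x, hx'⟩ : AK K m) * (⟨y, hy'⟩ : AK K m) :=
        Subtype.ext (by rw [MulMemClass.coe_mul])
      rw [e]; exact Subalgebra.mul_mem _ hx hy
  exact this p hp

end

end Pool.Agent.Helper28.RittN
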