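import Mathlib
import Pool.Agent.Helper28.RittN.Main

set_option autoImplicit false

open MvPolynomial

namespace Pool.Agent.Helper28.RittN

universe u v w

/-! ### The quotient -/

section

variable (K : Type u) [Field K] [Differential K] (m : ℕ)

lemma εA_surj : Function.Surjective (εA K m) := fun k =>
  ⟨algebraMap K (AK K m) k, (εA K m).commutes k⟩

/-- `A / M` is `K`. -/
noncomputable def quotEquiv : (AK K m ⧸ MK K m) ≃ₐ[K] K :=
  Ideal.quotientKerAlgEquivOfSurjective (εA_surj K m)

lemma quotEquiv_mk (p : AK K m) : quotEquiv K m (Ideal.Quotient.mk (MK K m) p) = εA K m p := rfl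

noncomputable instance instDiffQuot : Differential (AK K m ⧸ MK K m) :=
  Differential.equiv (quotEquiv K m).toRingEquiv

lemma dr_quot (x : AK K m ⧸ MK K m) : quotEquiv K m (dr x) = dr (quotEquiv K m x) := by
  change quotEquiv K m ((quotEquiv K m).symm (dr (quotEquiv K m x))) = _
  rw [AlgEquiv.apply_symm_apply]

lemma dr_mk (p : AK K m) :
    dr (Ideal.Quotient.mk (MK K m) p) = Ideal.Quotient.mk (MK K m) (dr p) := by
  apply (quotEquiv K m).injective
  rw [dr_quot, quotEquiv_mk, quotEquiv_mk, εA_dr]

lemma quot_surj (x : AK K m ⧸ MK K m) : ∃ k : K, algebraMap K (AK K m ⧸ MK K m) k = x := by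
  refine ⟨quotEquiv K m x, ?_⟩
  apply (quotEquiv K m).injective
  rw [AlgEquiv.commutes]
  rfl

end

section

variable (K : Type u) [Field K]

lemma frac_surj (B : Type u) [CommRing B] [IsDomain B] [Algebra K B]
    (h : ∀ x : B, ∃ k : K, algebraMap K B k = x) (x : FractionRing B) :
    ∃ k : K, algebraMap K (FractionRing B) k = x := by
  obtain ⟨a, b, hb, rfl⟩ := IsFractionRing.div_surjective (A := B) x
  obtain ⟨k, rfl⟩ := h a
  obtain ⟨l, rfl⟩ := h b
  refine ⟨k / l, ?_⟩
  rw [map_div₀, IsScalarTower.algebraMap_apply K B (FractionRing B),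
    IsScalarTower.algebraMap_apply K B (FractionRing B)]

/-- A differential domain all of whose elements lie in `K` has degree zero. -/
lemma deg_zero (B : Type u) [CommRing B] [IsDomain B] [Algebra K B]
    (h : ∀ x : B, ∃ k : K, algebraMap K B k = x)
    [Differential (FractionRing B)] :
    IsGreatest {m : ℕ | ∃ x : Fin m → FractionRing B,
      AlgebraicIndependent K (fun p : Fin m × ℕ => dr^[p.2] (x p.1))} 0 := by
  constructor
  · refine ⟨fun i => i.elim0, ?_⟩
    have : IsEmpty (Fin 0 × ℕ) := inferInstance
    have : FaithfulSMul K (FractionRing B) :=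
      (faithfulSMul_iff_algebraMap_injective K (FractionRing B)).2
        (algebraMap K (FractionRing B)).injective
    exact algebraicIndependent_empty_type
  · rintro m ⟨x, hx⟩
    by_contra hm
    have hm' : m ≠ 0 := by
      intro h0
      exact hm (by rw [h0])
    have h1 := hx.transcendental (⟨0, Nat.pos_of_ne_zero hm'⟩, 0)
    apply h1
    obtain ⟨k, hk⟩ := frac_surj K B h (dr^[0] (x ⟨0, Nat.pos_of_ne_zero hm'⟩))
    simp only
    rw [← hk]
    exact isAlgebraic_algebraMap _

end

/-! ### Derivations and fraction fields -/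

section

lemma map_dr_frac {B : Type u} {F : Type v} [CommRing B] [IsDomain B] [Differential B]
    [Field F] [Differential F] [Differential (FractionRing B)]
    [DifferentialAlgebra B (FractionRing B)] (φ : FractionRing B →+* F)
    (h : ∀ b : B, φ (algebraMap B (FractionRing B) (dr b))
      = dr (φ (algebraMap B (FractionRing B) b)))
    (x : FractionRing B) : φ (dr x) = dr (φ x) := by
  obtain ⟨a, b, hb, rfl⟩ := IsFractionRing.div_surjective (A := B) x
  set g := algebraMap B (FractionRing B) with hg
  have hb0 : g b ≠ 0 := by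
    rw [hg, Ne, FaithfulSMul.algebraMap_eq_zero_iff]
    exact nonZeroDivisors.ne_zero hb
  have e1 : g a / g b * g b = g a := div_mul_cancel₀ _ hb0
  have e2 := congrArg (fun t => φ (dr t)) e1
  simp only [dr_mul, map_add, map_mul] at e2
  rw [dr_algebraMap, dr_algebraMap, h, h] at e2
  have e3 := congrArg (fun t => dr (φ t)) e1
  simp only [dr_mul, map_mul] at e3
  have e4 : φ (g b) * (φ (dr (g a / g b)) - dr (φ (g a / g b))) = 0 := by
    rw [mul_sub]
    linear_combination e2 - e3
  rcases mul_eq_zero.1 e4 with h5 | h5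
  · exact absurd ((map_eq_zero φ).1 h5) hb0
  · exact sub_eq_zero.1 h5

lemma map_dr_frac_iter {B : Type u} {F : Type v} [CommRing B] [IsDomain B] [Differential B]
    [Field F] [Differential F] [Differential (FractionRing B)]
    [DifferentialAlgebra B (FractionRing B)] (φ : FractionRing B →+* F)
    (h : ∀ b : B, φ (algebraMap B (FractionRing B) (dr b))
      = dr (φ (algebraMap B (FractionRing B) b)))
    (x : FractionRing B) (n : ℕ) : φ (dr^[n] x) = dr^[n] (φ x) := by
  induction n with
  | zero => rfl
  | succ n ih => rw [Function.iterate_succ_apply', Function.iterate_succ_apply',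
      map_dr_frac φ h, ih]

end

/-! ### The upper bound -/

section

variable {K : Type u} {F : Type v} {ι : Type w} [Field K] [Differential K] [Field F]
  [Algebra K F] [Differential F] [DifferentialAlgebra K F]

/-- The subfield generated by the variables of order `< m`. -/
noncomputable def lev (Y : ι × ℕ → F) (m : ℕ) : IntermediateField K F :=
  IntermediateField.adjoin K (Y '' {p | p.2 < m})

omit [Differential K] [Differential F] [DifferentialAlgebra K F] in
lemma lev_mono (Y : ι × ℕ → F) {m n : ℕ} (h : m ≤ n) : lev (K := K) Y m ≤ lev Y n := by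
  apply IntermediateField.adjoin.mono
  apply Set.image_mono
  intro p hp
  exact lt_of_lt_of_le hp h

omit [Field K] [Differential K] [Algebra K F] [DifferentialAlgebra K F] in
lemma dr_inv (x : F) : dr x⁻¹ = -(x⁻¹ * x⁻¹ * dr x) := by
  by_cases hx : x = 0
  · rw [hx, inv_zero, dr_zero, mul_zero, neg_zero]
  · have h1 := congrArg dr (mul_inv_cancel₀ hx)
    rw [dr_mul, dr_one] at h1
    have h2 : x * dr x⁻¹ = - (x⁻¹ * dr x) := by linear_combination h1
    have h3 := congrArg (fun t => x⁻¹ * t) h2
    simp only [← mul_assoc, inv_mul_cancel₀ hx, one_mul] at h3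
    rw [h3]; ring

lemma dr_mem_lev (Y : ι × ℕ → F) (hY : ∀ p, dr (Y p) = Y (p.1, p.2 + 1)) (m : ℕ) {x : F}
    (hx : x ∈ lev (K := K) Y m) : dr x ∈ lev (K := K) Y (m + 1) := by
  induction hx using IntermediateField.adjoin_induction with
  | mem x hx =>
    obtain ⟨p, hp, rfl⟩ := hx
    rw [hY]
    apply IntermediateField.subset_adjoin
    exact ⟨(p.1, p.2 + 1), Nat.succ_lt_succ hp, rfl⟩
  | algebraMap k =>
    rw [dr_algebraMap]
    exact IntermediateField.algebraMap_mem _ _
  | add x y hx' hy' hx hy => rw [dr_add]; exact add_mem hx hy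
  | inv x hx' hx =>
    rw [dr_inv]
    have h1 : x ∈ lev (K := K) Y (m + 1) := lev_mono Y (Nat.le_succ m) hx'
    exact neg_mem (mul_mem (mul_mem (inv_mem h1) (inv_mem h1)) hx)
  | mul x y hx' hy' hx hy =>
    rw [dr_mul]
    have h1 : x ∈ lev (K := K) Y (m + 1) := lev_mono Y (Nat.le_succ m) hx'
    have h2 : y ∈ lev (K := K) Y (m + 1) := lev_mono Y (Nat.le_succ m) hy'
    exact add_mem (mul_mem h1 hy) (mul_mem h2 hx)

lemma dr_iter_mem_lev (Y : ι × ℕ → F) (hY : ∀ p, dr (Y p) = Y (p.1, p.2 + 1)) (m : ℕ) {x : F}
    (hx : x ∈ lev (K := K) Y m) (n : ℕ) : dr^[n] x ∈ lev (K := K) Y (m + n) := by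
  induction n with
  | zero => exact hx
  | succ n ih => rw [Function.iterate_succ_apply']; exact dr_mem_lev Y hY _ ih

omit [Field K] [Differential K] [Field F] [Algebra K F] [Differential F]
  [DifferentialAlgebra K F] in
lemma encard_level [Fintype ι] (Y : ι × ℕ → F) (m : ℕ) :
    (Y '' {p | p.2 < m}).encard ≤ (Fintype.card ι * m : ℕ) := by
  classical
  refine (Set.encard_image_le _ _).trans ?_
  have h : {p : ι × ℕ | p.2 < m} = ((Finset.univ ×ˢ Finset.range m : Finset (ι × ℕ)) :
      Set (ι × ℕ)) := by
    ext p; simp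
  rw [h, Set.encard_coe_eq_coe_finsetCard, Finset.card_product]
  simp

/-- A differential field in which every element is a rational function of the derivatives of
finitely many elements `Y (i, 0)`, `i : ι`, has differential transcendence degree at most the
number of these elements. -/
lemma le_card [Fintype ι] (Y : ι × ℕ → F) (hY : ∀ p, dr (Y p) = Y (p.1, p.2 + 1))
    (hF : ∀ x : F, ∃ m, x ∈ lev (K := K) Y m) {m : ℕ} (x : Fin m → F)
    (hx : AlgebraicIndependent K (fun p : Fin m × ℕ => dr^[p.2] (x p.1))) :
    m ≤ Fintype.card ι := by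
  classical
  choose h hh using hF
  set H := Finset.univ.sup (fun i => h (x i)) with hH
  have h1 : ∀ i, x i ∈ lev (K := K) Y H := fun i =>
    lev_mono Y (Finset.le_sup (f := fun i => h (x i)) (Finset.mem_univ i)) (hh (x i))
  set q := Fintype.card ι with hq
  set N := q * H with hN
  have h2 : AlgebraicIndependent K (fun p : Fin m × Fin (N + 1) => dr^[(p.2 : ℕ)] (x p.1)) := by
    have := hx.comp (fun p : Fin m × Fin (N + 1) => (p.1, (p.2 : ℕ))) (by
      rintro ⟨i, a⟩ ⟨j, b⟩ hab
      simp only [Prod.mk.injEq] at hab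
      rw [hab.1, Fin.ext hab.2])
    exact this
  have h3 := card_le (K := K) (Y '' {p | p.2 < H + N}) _ h2 (by
    rintro ⟨i, a⟩
    exact lev_mono Y (by omega : H + (a : ℕ) ≤ H + N) (dr_iter_mem_lev Y hY H (h1 i) a))
  have h4 : (Set.range (fun p : Fin m × Fin (N + 1) => dr^[(p.2 : ℕ)] (x p.1))).encard
      = ((m * (N + 1) : ℕ) : ℕ∞) := by
    rw [← Set.image_univ, h2.injective.encard_image, Set.encard_univ]
    simp
  rw [h4] at h3
  have h5 := h3.trans (encard_level Y (H + N))
  have h6 : m * (N + 1) ≤ q * (H + N) := by exact_mod_cast h5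
  by_contra hm
  have h7 : q + 1 ≤ m := by omega
  have h8 : (q + 1) * (N + 1) ≤ m * (N + 1) := Nat.mul_le_mul_right _ h7
  have h9 : (q + 1) * (N + 1) ≤ q * (H + N) := h8.trans h6
  have h10 : q * (H + N) = N + q * N := by rw [mul_add]
  have h11 : (q + 1) * (N + 1) = q * N + q + N + 1 := by ring
  omega

end

section

variable (K : Type u) [Field K] (m : ℕ)

lemma mem_lev_poly (p : RK K m) : ∃ n, algebraMap (RK K m) (FractionRing (RK K m)) p ∈
    lev (K := K) (fun p => algebraMap (RK K m) (FractionRing (RK K m)) (X p)) n := by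
  induction p using MvPolynomial.induction_on with
  | C k =>
    refine ⟨0, ?_⟩
    rw [← MvPolynomial.algebraMap_eq,
      ← IsScalarTower.algebraMap_apply K (RK K m) (FractionRing (RK K m))]
    exact IntermediateField.algebraMap_mem _ _
  | add p q hp hq =>
    obtain ⟨a, ha⟩ := hp
    obtain ⟨b, hb⟩ := hq
    refine ⟨max a b, ?_⟩
    rw [map_add]
    exact add_mem (lev_mono _ (le_max_left a b) ha) (lev_mono _ (le_max_right a b) hb)
  | mul_X p i hp =>
    obtain ⟨a, ha⟩ := hp
    refine ⟨max a (i.2 + 1), ?_⟩
    rw [map_mul]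
    refine mul_mem (lev_mono _ (le_max_left a _) ha) (lev_mono _ (le_max_right a _) ?_)
    apply IntermediateField.subset_adjoin
    exact ⟨i, Nat.lt_succ_self i.2, rfl⟩

lemma mem_lev (x : FractionRing (RK K m)) : ∃ n, x ∈
    lev (K := K) (fun p => algebraMap (RK K m) (FractionRing (RK K m)) (X p)) n := by
  obtain ⟨a, b, hb, rfl⟩ := IsFractionRing.div_surjective (A := RK K m) x
  obtain ⟨i, hi⟩ := mem_lev_poly K m a
  obtain ⟨j, hj⟩ := mem_lev_poly K m b
  refine ⟨max i j, ?_⟩
  exact div_mem (lev_mono _ (le_max_left i j) hi) (lev_mono _ (le_max_right i j) hj)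

lemma exists_lift (R : Type u) [CommRing R] [IsDomain R] [Algebra K R]
    (B : Type u) [CommRing B] [IsDomain B] [Algebra K B]
    (ψ : B →ₐ[K] R) (hψ : Function.Injective ψ) :
    ∃ φ : FractionRing B →ₐ[K] FractionRing R, ∀ b : B, φ (algebraMap B (FractionRing B) b)
      = algebraMap R (FractionRing R) (ψ b) := by
  have hinj : Function.Injective ((IsScalarTower.toAlgHom K R (FractionRing R)).comp
      ψ) := by
    intro a b hab
    exact hψ (IsFractionRing.injective R (FractionRing R) hab)
  exact ⟨IsFractionRing.liftAlgHom hinj, fun b => IsFractionRing.lift_algebraMap hinj b⟩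

variable [Differential K]

/-- A differential `K`-domain `B` with an injective differential homomorphism `ψ` into a
differential `K`-domain `R` whose fraction field is generated by the derivatives of the
differentially independent elements `Y (i, 0)`, `i : ι`, such that these elements are images of
elements of the fraction field of `B`: the degree is the number of these elements. -/
lemma deg_card {ι : Type w} [Fintype ι] (R : Type u) [CommRing R] [IsDomain R] [Algebra K R]
    [Differential R] [DifferentialAlgebra K R]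
    (Y : ι × ℕ → R) (hY : ∀ p, dr (Y p) = Y (p.1, p.2 + 1)) (hYind : AlgebraicIndependent K Y)
    (hR : ∀ x : FractionRing R, ∃ m, x ∈
      lev (K := K) (fun p => algebraMap R (FractionRing R) (Y p)) m)
    (B : Type u) [CommRing B] [IsDomain B] [Algebra K B] [Differential B]
    (ψ : B →ₐ[K] R) (hψ : Function.Injective ψ) (hψd : ∀ b, ψ (dr b) = dr (ψ b))
    [Differential (FractionRing B)] [DifferentialAlgebra B (FractionRing B)]
    (hgen : ∀ φ : FractionRing B →ₐ[K] FractionRing R,
      (∀ b : B, φ (algebraMap B (FractionRing B) b) = algebraMap R (FractionRing R) (ψ b)) →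
      ∀ [Differential (FractionRing R)] [DifferentialAlgebra R (FractionRing R)],
      (∀ x, φ (dr x) = dr (φ x)) →
      ∀ i : ι, ∃ x, φ x = algebraMap R (FractionRing R) (Y (i, 0))) :
    IsGreatest {m : ℕ | ∃ x : Fin m → FractionRing B,
      AlgebraicIndependent K (fun p : Fin m × ℕ => dr^[p.2] (x p.1))} (Fintype.card ι) := by
  obtain ⟨dF, hdF⟩ := exists_fractionRing R
  have hK : DifferentialAlgebra K (FractionRing R) := ⟨fun k => by
    change dr (algebraMap K (FractionRing R) k) = algebraMap K (FractionRing R) (dr k)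
    rw [IsScalarTower.algebraMap_apply K R (FractionRing R), dr_algebraMap,
      dr_algebraMap, ← IsScalarTower.algebraMap_apply K R (FractionRing R)]⟩
  obtain ⟨φ, hφ⟩ := exists_lift K R B ψ hψ
  have hdφ : ∀ b : B, (φ : FractionRing B →+* FractionRing R)
      (algebraMap B (FractionRing B) (dr b))
      = dr ((φ : FractionRing B →+* FractionRing R)
        (algebraMap B (FractionRing B) b)) := by
    intro b
    have e1 : (φ : FractionRing B →+* FractionRing R)
      (algebraMap B (FractionRing B) (dr b)) = algebraMap R (FractionRing R) (ψ (dr b)) :=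
      hφ (dr b)
    have e2 : (φ : FractionRing B →+* FractionRing R)
      (algebraMap B (FractionRing B) b) = algebraMap R (FractionRing R) (ψ b) := hφ b
    rw [e1, e2, hψd, dr_algebraMap]
  have hφd : ∀ x, φ (dr x) = dr (φ x) := fun x =>
    map_dr_frac (φ : FractionRing B →+* FractionRing R) hdφ x
  have hφi : ∀ x n, φ (dr^[n] x) = dr^[n] (φ x) := fun x n =>
    map_dr_frac_iter (φ : FractionRing B →+* FractionRing R) hdφ x n
  have hY' : ∀ p, dr (algebraMap R (FractionRing R) (Y p))
      = algebraMap R (FractionRing R) (Y (p.1, p.2 + 1)) := by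
    intro p
    rw [dr_algebraMap, hY]
  have hYn : ∀ (i : ι) (n : ℕ), dr^[n] (algebraMap R (FractionRing R) (Y (i, 0)))
      = algebraMap R (FractionRing R) (Y (i, n)) := by
    intro i n
    induction n with
    | zero => rfl
    | succ n ih => rw [Function.iterate_succ_apply', ih, hY']
  constructor
  · have hg := hgen φ hφ hφd
    choose t ht using hg
    let e := Fintype.equivFin ι
    refine ⟨fun i => t (e.symm i), ?_⟩
    apply AlgebraicIndependent.of_comp φ
    have h1 : AlgebraicIndependent K (fun p : ι × ℕ => algebraMap R (FractionRing R) (Y p)) :=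
      hYind.map' (f := IsScalarTower.toAlgHom K R (FractionRing R))
        (IsFractionRing.injective R (FractionRing R))
    have h2 := h1.comp (fun p : Fin (Fintype.card ι) × ℕ => (e.symm p.1, p.2)) (by
      rintro ⟨i, a⟩ ⟨j, b⟩ hab
      simp only [Prod.mk.injEq] at hab
      rw [e.symm.injective hab.1, hab.2])
    have h3 : (⇑φ ∘ fun p : Fin (Fintype.card ι) × ℕ => dr^[p.2] (t (e.symm p.1)))
        = (fun p : ι × ℕ => algebraMap R (FractionRing R) (Y p))
          ∘ (fun p : Fin (Fintype.card ι) × ℕ => (e.symm p.1, p.2)) := by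
      funext p
      change φ (dr^[p.2] (t (e.symm p.1))) = algebraMap R (FractionRing R) (Y (e.symm p.1, p.2))
      rw [hφi, ht, hYn]
    rw [h3]
    exact h2
  · rintro n ⟨x, hx⟩
    have h1 : AlgebraicIndependent K (fun p : Fin n × ℕ => dr^[p.2] (φ (x p.1))) := by
      have h2 := hx.map' (f := φ) φ.injective
      have h3 : (fun p : Fin n × ℕ => dr^[p.2] (φ (x p.1)))
          = ⇑φ ∘ (fun p : Fin n × ℕ => dr^[p.2] (x p.1)) := by
        funext p
        exact (hφi (x p.1) p.2).symm
      rw [h3]
      exact h2
    exact le_card (K := K) (F := FractionRing R) (fun p => algebraMap R (FractionRing R) (Y p))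
      hY' hR (fun i => φ (x i)) h1

end

end Pool.Agent.Helper28.RittN
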