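import Mathlib
import Pool.Agent.Helper28.RittN.Degree

set_option autoImplicit false

open MvPolynomial

namespace Pool.Agent.Helper28.RittN

universe u

section

variable (K : Type u) [Field K] (m : ℕ)

lemma cc_ne : cc K m ≠ 0 := X_ne_zero _

lemma WW_ne : WW K m ≠ 0 := by
  rw [WW, Finset.prod_ne_zero_iff]
  intro i _
  exact X_ne_zero _

lemma Wk_ne (k : ℕ) : Wk K m k ≠ 0 := by
  rw [Wk, Finset.prod_ne_zero_iff]
  intro i _
  exact X_ne_zero _

lemma bb_ne (k : ℕ) : (bb K m k) ^ 6 - 1 ≠ 0 := by
  intro h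
  have h1 := congrArg (MvPolynomial.aeval (R := K) (fun _ => (0 : K))) h
  simp [bb] at h1

lemma rr_ne (k : ℕ) : rr K m k ≠ 0 := by
  induction k with
  | zero => rw [rr]; exact one_ne_zero
  | succ k ih =>
    rw [rr]
    exact mul_ne_zero (mul_ne_zero (mul_ne_zero (cc_ne K m) (pow_ne_zero 2 (Wk_ne K m k)))
      (pow_ne_zero 2 ih)) (bb_ne K m k)

lemma ss_ne (k : ℕ) : ss K m k ≠ 0 := by
  rw [ss]
  exact mul_ne_zero (mul_ne_zero (cc_ne K m) (pow_ne_zero 2 (WW_ne K m))) (rr_ne K m k)

end

section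

variable (K : Type u) [Field K] [Differential K] [CharZero K] (m : ℕ)

omit [CharZero K] in
/-- The variable `b_j` is the image of `y_j / s_j`. -/
lemma lift_b (φ : FractionRing (AK K m) →ₐ[K] FractionRing (RK K m))
    (hφ : ∀ b : AK K m, φ (algebraMap (AK K m) (FractionRing (AK K m)) b)
      = algebraMap (RK K m) (FractionRing (RK K m)) (b : RK K m)) (j : Fin (m + 1)) :
    ∃ x, φ x = algebraMap (RK K m) (FractionRing (RK K m)) (X (some j, 0)) := by
  have hj : (j : ℕ) ≤ m := Nat.lt_succ_iff.1 j.2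
  refine ⟨algebraMap (AK K m) (FractionRing (AK K m)) (yA K m hj)
    / algebraMap (AK K m) (FractionRing (AK K m)) (sA K m (Nat.le_succ_of_le hj)), ?_⟩
  rw [map_div₀, hφ, hφ]
  change algebraMap (RK K m) (FractionRing (RK K m)) (yy K m j)
    / algebraMap (RK K m) (FractionRing (RK K m)) (ss K m j) = _
  have h1 : algebraMap (RK K m) (FractionRing (RK K m)) (ss K m j) ≠ 0 := by
    rw [Ne, FaithfulSMul.algebraMap_eq_zero_iff]
    exact ss_ne K m j
  rw [yy, map_mul, mul_div_assoc, div_self h1, mul_one, bb]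
  congr 3
  simp

/-- The variable `c` is the image of an element of the fraction field of `A`. -/
lemma lift_c [Differential (FractionRing (AK K m))]
    (φ : FractionRing (AK K m) →ₐ[K] FractionRing (RK K m))
    (hφ : ∀ b : AK K m, φ (algebraMap (AK K m) (FractionRing (AK K m)) b)
      = algebraMap (RK K m) (FractionRing (RK K m)) (b : RK K m))
    [Differential (FractionRing (RK K m))] [DifferentialAlgebra (RK K m) (FractionRing (RK K m))]
    (hφd : ∀ x, φ (dr x) = dr (φ x)) :
    ∃ x, φ x = algebraMap (RK K m) (FractionRing (RK K m)) (X (none, 0)) := by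
  choose β hβ using lift_b K m φ hφ
  refine ⟨algebraMap (AK K m) (FractionRing (AK K m)) (sA K m (Nat.zero_le (m + 1)))
    / (∏ i : Fin (m + 1), dr (β i)) ^ 2, ?_⟩
  have h1 : φ (∏ i : Fin (m + 1), dr (β i))
      = algebraMap (RK K m) (FractionRing (RK K m)) (WW K m) := by
    rw [map_prod, WW, map_prod]
    apply Finset.prod_congr rfl
    intro i _
    rw [hφd, hβ, dr_algebraMap, dr_X]
  have h2 : algebraMap (RK K m) (FractionRing (RK K m)) (WW K m) ≠ 0 := by
    rw [Ne, FaithfulSMul.algebraMap_eq_zero_iff]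
    exact WW_ne K m
  rw [map_div₀, map_pow, h1, hφ]
  change algebraMap (RK K m) (FractionRing (RK K m)) (ss K m 0)
    / algebraMap (RK K m) (FractionRing (RK K m)) (WW K m) ^ 2
    = algebraMap (RK K m) (FractionRing (RK K m)) (cc K m)
  rw [ss, rr, mul_one, map_mul, map_pow, mul_div_assoc, div_self (pow_ne_zero 2 h2), mul_one]

/-- The degree of `A` is `m + 2`. -/
lemma deg_AK [Differential (FractionRing (AK K m))]
    [DifferentialAlgebra (AK K m) (FractionRing (AK K m))] :
    IsGreatest {n : ℕ | ∃ x : Fin n → FractionRing (AK K m),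
      AlgebraicIndependent K (fun p : Fin n × ℕ => dr^[p.2] (x p.1))} (m + 2) := by
  have h := deg_card K (ι := Option (Fin (m + 1))) (RK K m) X (dr_X _ K)
    (MvPolynomial.algebraicIndependent_X _ K) (mem_lev K m) (AK K m) (AK K m).val
    Subtype.val_injective (coe_dr K m) (by
      intro φ hφ _ _ hφd i
      cases i with
      | none => exact lift_c K m φ hφ hφd
      | some j => exact lift_b K m φ hφ j)
  have hc : Fintype.card (Option (Fin (m + 1))) = m + 2 := by simp
  rw [hc] at h
  exact h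

end

end Pool.Agent.Helper28.RittN
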