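import Mathlib
import Pool.Agent.Helper28.RittN.Final

set_option autoImplicit false

open scoped Differential

namespace Pool.Agent.Helper28.RittN

universe u

/-- Packing lemma: all the data in the form in which they were built, for a general property `Q`
of differential domains. -/
lemma pack (K : Type u) [Field K] [Differential K] (N : ℕ)
    (Q : ∀ (B : Type u) [CommRing B] [IsDomain B] [Algebra K B] [Differential B], ℕ → Prop)
    (A : Type u) [CommRing A] [IsDomain A]
    [Algebra K A] [Differential A] [DifferentialAlgebra K A] (a : Fin (2 * N - 1) → A)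
    (ha : Algebra.adjoin K (Set.range (fun p : Fin (2 * N - 1) × ℕ => dr^[p.2] (a p.1))) = ⊤)
    (f : A) (P : Ideal A) [P.IsPrime] [Differential (A ⧸ P)] (hf : ¬ IsUnit f)
    (hmin : (Ideal.span (Set.range (fun k : ℕ => dr^[k] f))).minimalPrimes = {P})
    (hmk : ∀ y : A, dr (Ideal.Quotient.mk P y) = Ideal.Quotient.mk P (dr y))
    (h2 : Q A N) (h0 : Q (A ⧸ P) 0) :
    ∃ (A : Type u) (_ : CommRing A) (_ : IsDomain A) (_ : Algebra K A) (_ : Differential A),
      DifferentialAlgebra K A ∧
      (∃ a : Fin (2 * N - 1) → A, Algebra.adjoin K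
        (Set.range (fun p : Fin (2 * N - 1) × ℕ => (fun y : A => y′)^[p.2] (a p.1))) = ⊤) ∧
      ∃ (f : A) (P : Ideal A) (_ : P.IsPrime) (_ : Differential (A ⧸ P)),
        ¬ IsUnit f ∧
        (Ideal.span (Set.range (fun k : ℕ => (fun y : A => y′)^[k] f))).minimalPrimes = {P} ∧
        (∀ y : A, (Ideal.Quotient.mk P y)′ = Ideal.Quotient.mk P (y′)) ∧
        Q A N ∧ Q (A ⧸ P) 0 :=
  ⟨A, inferInstance, inferInstance, inferInstance, inferInstance, inferInstance, ⟨a, ha⟩, f, P,
    inferInstance, inferInstance, hf, hmin, hmk, h2, h0⟩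

end Pool.Agent.Helper28.RittN
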